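import Mathlib
import Pool.Agent.TH869.LPD.Disc

/-!
Discrepancy of a sequence of points of the torus of dimension `d` from its exponential sums.
-/

set_option autoImplicit false

open Finset

namespace Pool.Agent.Q204.NN

open Pool.Agent.H332R2.Lit (e e_add norm_e e_zero conj_e e_nat_mul normSq_sum norm_geom_le)
open Pool.Agent.TH869.LPS (nr sq_exp nr_zero nr_sum orth)

lemma e_sum {ι : Type*} (T : Finset ι) (f : ι → ℝ) : e (∑ i ∈ T, f i) = ∏ i ∈ T, e (f i) := by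
  classical
  induction T using Finset.induction_on with
  | empty => simp [e_zero]
  | insert a T ha ih => rw [sum_insert ha, prod_insert ha, e_add, ih]

/-- products of numbers of the unit interval -/
lemma prod_le_add {ι : Type*} (T : Finset ι) (a b : ι → ℝ) (δ : ℝ) (hδ : 0 ≤ δ)
    (ha : ∀ i ∈ T, 0 ≤ a i ∧ a i ≤ 1) (hb : ∀ i ∈ T, 0 ≤ b i ∧ b i ≤ 1)
    (hab : ∀ i ∈ T, a i ≤ b i + δ) : ∏ i ∈ T, a i ≤ ∏ i ∈ T, b i + T.card * δ := by
  classical
  induction T using Finset.induction_on with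
  | empty => simp
  | insert i T hi ih =>
    rw [prod_insert hi, prod_insert hi, card_insert_of_notMem hi]
    have ih' := ih (fun j hj => ha j (mem_insert_of_mem hj)) (fun j hj => hb j (mem_insert_of_mem hj))
      (fun j hj => hab j (mem_insert_of_mem hj))
    obtain ⟨ha0, ha1⟩ := ha i (mem_insert_self _ _)
    have h3 := hab i (mem_insert_self _ _)
    have hB0 : 0 ≤ ∏ j ∈ T, b j := prod_nonneg fun j hj => (hb j (mem_insert_of_mem hj)).1
    have hB1 : ∏ j ∈ T, b j ≤ 1 := prod_le_one (fun j hj => (hb j (mem_insert_of_mem hj)).1)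
      (fun j hj => (hb j (mem_insert_of_mem hj)).2)
    have hk : (0 : ℝ) ≤ T.card * δ := by positivity
    push_cast
    calc a i * ∏ j ∈ T, a j ≤ a i * (∏ j ∈ T, b j + T.card * δ) := by gcongr
      _ = a i * ∏ j ∈ T, b j + a i * (T.card * δ) := by ring
      _ ≤ (b i + δ) * ∏ j ∈ T, b j + 1 * (T.card * δ) := by gcongr
      _ = b i * ∏ j ∈ T, b j + δ * ∏ j ∈ T, b j + T.card * δ := by ring
      _ ≤ b i * ∏ j ∈ T, b j + δ * 1 + T.card * δ := by gcongr
      _ = _ := by ring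

/-- the Fejér weights -/
noncomputable def D (M : ℕ) (t : ℝ) : ℝ := ‖∑ a ∈ range M, e (a * t)‖ ^ 2 / M ^ 2

lemma D_nonneg (M : ℕ) (t : ℝ) : 0 ≤ D M t := by unfold D; positivity

lemma D_sum (M : ℕ) (hM : 1 ≤ M) (t : ℝ) : ∑ j ∈ range M, D M (t - j / M) = 1 := by
  have hMr : (0:ℝ) < M := by exact_mod_cast hM
  unfold D
  rw [← sum_div, orth M (by omega) t, div_self (by positivity)]

/-- the weights are small away from `0` -/
lemma D_small (M : ℕ) (hM : 1 ≤ M) (η : ℝ) (hη : 0 < η) (t : ℝ)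
    (h : ∀ n : ℤ, η ≤ |t - n|) : D M t ≤ 1 / (4 * η ^ 2 * M ^ 2) := by
  have hMr : (0:ℝ) < M := by exact_mod_cast hM
  have h3 := norm_geom_le _ _ hη (h (round t)) M
  unfold D
  rw [div_le_div_iff₀ (by positivity) (by positivity)]
  have h4 : ‖∑ a ∈ range M, e (a * t)‖ ^ 2 ≤ (1 / (2 * η)) ^ 2 := by gcongr
  have h5 : (1 / (2 * η)) ^ 2 * (4 * η ^ 2) = 1 := by field_simp; norm_num
  calc ‖∑ a ∈ range M, e (a * t)‖ ^ 2 * (4 * η ^ 2 * (M:ℝ) ^ 2)
      ≤ (1 / (2 * η)) ^ 2 * (4 * η ^ 2 * (M:ℝ) ^ 2) := by gcongr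
    _ = 1 * (M:ℝ) ^ 2 := by rw [← mul_assoc, h5]

/-- the weights as a trigonometric polynomial -/
lemma D_poly (M : ℕ) (t : ℝ) :
    ((D M t : ℝ) : ℂ) = (∑ h ∈ Ioo (-(M:ℤ)) M, (nr M h : ℂ) * e (h * t)) / M ^ 2 := by
  unfold D
  push_cast
  congr 1
  rw [← Complex.ofReal_pow, sq_exp]

variable {d : ℕ}

open Classical in
/-- mean of a product of weights -/
lemma mean_prod (M : ℕ) (hM : 1 ≤ M) (x : ℕ → Fin d → ℝ) (N : ℕ) (S : ℝ) (hS0 : 0 ≤ S)
    (hS : ∀ h : Fin d → ℤ, h ≠ 0 → (∀ i, |h i| < M) →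
      ‖∑ l ∈ range N, e (∑ i, h i * x l i)‖ ≤ S) (c : Fin d → ℝ) :
    |∑ l ∈ range N, ∏ i, D M (x l i - c i) - (N : ℝ) / M ^ d| ≤ S := by
  have hMr : (0:ℝ) < M := by exact_mod_cast hM
  set I : Finset (Fin d → ℤ) := Fintype.piFinset fun _ : Fin d => Ioo (-(M:ℤ)) M with hI
  have hexp : ∀ l, ((∏ i, D M (x l i - c i) : ℝ) : ℂ) =
      (∑ h ∈ I, (∏ i, (nr M (h i) : ℂ)) * (e (-(∑ i, h i * c i)) * e (∑ i, h i * x l i))) /
        (M ^ 2) ^ d := by
    intro l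
    rw [Complex.ofReal_prod]
    simp_rw [D_poly]
    rw [prod_div_distrib]
    congr 1
    · rw [prod_univ_sum]
      refine sum_congr rfl fun h _ => ?_
      rw [prod_mul_distrib, ← e_add, ← e_sum]
      congr 2
      rw [← sum_neg_distrib, ← sum_add_distrib]
      refine sum_congr rfl fun i _ => ?_
      ring
    · simp
  have h0 : (0 : Fin d → ℤ) ∈ I := by
    rw [hI, Fintype.mem_piFinset]
    intro i
    rw [Pi.zero_apply, mem_Ioo]
    omega
  have hsum : ((∑ l ∈ range N, ∏ i, D M (x l i - c i) : ℝ) : ℂ) =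
      (∑ h ∈ I, (∏ i, (nr M (h i) : ℂ)) * (e (-(∑ i, h i * c i)) *
        ∑ l ∈ range N, e (∑ i, h i * x l i))) / (M ^ 2) ^ d := by
    rw [Complex.ofReal_sum]
    simp_rw [hexp]
    rw [← sum_div, sum_comm]
    congr 1
    refine sum_congr rfl fun h _ => ?_
    rw [mul_sum, mul_sum]
  have hzero : (∏ i : Fin d, (nr M ((0 : Fin d → ℤ) i) : ℂ)) *
      (e (-(∑ i, (((0 : Fin d → ℤ) i : ℤ) : ℝ) * c i)) *
        ∑ l ∈ range N, e (∑ i, (((0 : Fin d → ℤ) i : ℤ) : ℝ) * x l i)) = M ^ d * N := by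
    simp [nr_zero, e_zero]
  have hkey : ((∑ l ∈ range N, ∏ i, D M (x l i - c i) - (N : ℝ) / M ^ d : ℝ) : ℂ) =
      (∑ h ∈ I.erase 0, (∏ i, (nr M (h i) : ℂ)) * (e (-(∑ i, h i * c i)) *
        ∑ l ∈ range N, e (∑ i, h i * x l i))) / (M ^ 2) ^ d := by
    rw [Complex.ofReal_sub, hsum, ← add_sum_erase _ _ h0, hzero, add_div]
    have : ((M : ℂ) ^ d * N) / ((M : ℂ) ^ 2) ^ d = (((N : ℝ) / M ^ d : ℝ) : ℂ) := by
      have hMc : (M : ℂ) ≠ 0 := by exact_mod_cast (by omega : M ≠ 0)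
      push_cast
      field_simp
      ring
    rw [this]
    ring
  have hnorm : |∑ l ∈ range N, ∏ i, D M (x l i - c i) - (N : ℝ) / M ^ d| =
      ‖((∑ l ∈ range N, ∏ i, D M (x l i - c i) - (N : ℝ) / M ^ d : ℝ) : ℂ)‖ := by
    rw [Complex.norm_real, Real.norm_eq_abs]
  rw [hnorm, hkey, norm_div, norm_pow, norm_pow, Complex.norm_natCast, div_le_iff₀ (by positivity)]
  have h5 : ∀ h ∈ I.erase 0, ‖(∏ i, (nr M (h i) : ℂ)) * (e (-(∑ i, h i * c i)) *
        ∑ l ∈ range N, e (∑ i, h i * x l i))‖ ≤ (∏ i, (nr M (h i) : ℝ)) * S := by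
    intro h hh
    rw [mem_erase, hI, Fintype.mem_piFinset] at hh
    rw [norm_mul, norm_mul, norm_e, one_mul, norm_prod]
    have h6 : ∏ i, ‖(nr M (h i) : ℂ)‖ = ∏ i, (nr M (h i) : ℝ) :=
      prod_congr rfl fun i _ => Complex.norm_natCast _
    rw [h6]
    gcongr
    apply hS h hh.1
    intro i
    rw [abs_lt]
    exact mem_Ioo.1 (hh.2 i)
  refine (norm_sum_le _ _).trans ((sum_le_sum h5).trans ?_)
  rw [← sum_mul, mul_comm]
  gcongr
  calc ∑ h ∈ I.erase 0, ∏ i, (nr M (h i) : ℝ) ≤ ∑ h ∈ I, ∏ i, (nr M (h i) : ℝ) := by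
        apply sum_le_sum_of_subset_of_nonneg (erase_subset _ _)
        intros; positivity
    _ = ∏ _i : Fin d, ∑ h ∈ Ioo (-(M:ℤ)) M, (nr M h : ℝ) := by
        rw [hI, prod_univ_sum]
    _ = ((M : ℝ) ^ 2) ^ d := by
        have h7 : ∑ h ∈ Ioo (-(M:ℤ)) M, (nr M h : ℝ) = M ^ 2 := by exact_mod_cast nr_sum M
        rw [h7]
        simp

open Classical in
/-- the number of grid points of an interval, from below -/
lemma grid_lower (M : ℕ) (hM : 1 ≤ M) (A B : ℝ) (hA : 0 ≤ A) (hB : B < 1) :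
    M * (B - A) - 1 ≤ (((range M).filter (fun j : ℕ => A ≤ (j:ℝ) / M ∧ (j:ℝ) / M ≤ B)).card : ℝ) := by
  have hMr : (0:ℝ) < M := by exact_mod_cast hM
  rcases lt_or_ge B A with hAB | hAB
  · have h1 : (M : ℝ) * (B - A) - 1 ≤ 0 := by nlinarith
    exact h1.trans (Nat.cast_nonneg _)
  have hB0 : 0 ≤ B := hA.trans hAB
  have h1 : (Icc ⌈M * A⌉₊ ⌊M * B⌋₊).card ≤
      ((range M).filter (fun j : ℕ => A ≤ (j:ℝ) / M ∧ (j:ℝ) / M ≤ B)).card := by
    apply card_le_card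
    intro j hj
    rw [mem_Icc] at hj
    have h2 : (M : ℝ) * A ≤ j := Nat.ceil_le.1 hj.1
    have h3 : (j : ℝ) ≤ M * B := (Nat.cast_le.2 hj.2).trans (Nat.floor_le (by positivity))
    rw [mem_filter, mem_range]
    refine ⟨?_, ?_, ?_⟩
    · have h4 : (j : ℝ) < M := by nlinarith
      exact_mod_cast h4
    · rw [le_div_iff₀ hMr]; linarith
    · rw [div_le_iff₀ hMr]; linarith
  have h2 : (M : ℝ) * (B - A) - 1 ≤ ((Icc ⌈M * A⌉₊ ⌊M * B⌋₊).card : ℝ) := by
    rw [Nat.card_Icc]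
    have h3 := Nat.lt_floor_add_one (M * B)
    have h4 := Nat.ceil_lt_add_one (by positivity : 0 ≤ M * A)
    have h5 : ((⌊(M : ℝ) * B⌋₊ : ℝ) + 1 - (⌈(M : ℝ) * A⌉₊ : ℝ)) ≤
        ((⌊(M : ℝ) * B⌋₊ + 1 - ⌈(M : ℝ) * A⌉₊ : ℕ) : ℝ) := by
      have := Nat.le_sub_of_add_le (le_refl ((⌊(M : ℝ) * B⌋₊ + 1 - ⌈(M : ℝ) * A⌉₊) + 0))
      rcases le_total ⌈(M : ℝ) * A⌉₊ (⌊(M : ℝ) * B⌋₊ + 1) with h6 | h6
      · rw [Nat.cast_sub h6]
        push_cast
        exact le_rfl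
      · rw [Nat.sub_eq_zero_of_le h6]
        have h7 : ((⌊(M : ℝ) * B⌋₊ : ℝ) + 1) ≤ (⌈(M : ℝ) * A⌉₊ : ℝ) := by exact_mod_cast h6
        push_cast
        linarith
    linarith
  exact h2.trans (by exact_mod_cast h1)

open Classical in
/-- upper bound for the number of points in a box -/
theorem box_upper (M : ℕ) (hM : 1 ≤ M) (η : ℝ) (hη : 0 < η) (x : ℕ → Fin d → ℝ) (N : ℕ) (S : ℝ)
    (hS0 : 0 ≤ S)
    (hS : ∀ h : Fin d → ℤ, h ≠ 0 → (∀ i, |h i| < M) →
      ‖∑ l ∈ range N, e (∑ i, h i * x l i)‖ ≤ S) (α β : Fin d → ℝ) (hαβ : ∀ i, α i ≤ β i)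
    (hw : ∀ i, β i - α i ≤ 1)
    (T : Finset ℕ) (hT : T ⊆ range N)
    (hT1 : ∀ l ∈ T, ∀ i, ∃ n : ℤ, α i ≤ x l i - n ∧ x l i - n ≤ β i) :
    (T.card : ℝ) ≤ N * (∏ i, (β i - α i)) + N * d * (2 * η + 1 / M + 1 / (4 * M * η ^ 2)) +
      M ^ d * S := by
  have hMr : (0:ℝ) < M := by exact_mod_cast hM
  have hN0 : (0:ℝ) ≤ N := Nat.cast_nonneg _
  set J : Fin d → Finset ℕ := fun i => (range M).filter
    (fun j : ℕ => ∃ n : ℤ, α i - η ≤ (j:ℝ) / M - n ∧ (j:ℝ) / M - n ≤ β i + η) with hJ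
  have hJc : ∀ i, ((J i).card : ℝ) / M ≤ β i - α i + (2 * η + 1 / M) := by
    intro i
    have := Pool.Agent.TH869.LPD.grid_card M hM (α i - η) (β i + η) (by linarith [hαβ i])
    rw [div_le_iff₀ hMr]
    refine this.trans (le_of_eq ?_)
    field_simp
    ring
  have hJM : ∀ i, ((J i).card : ℝ) ≤ M := by
    intro i
    have : (J i).card ≤ (range M).card := card_le_card (filter_subset _ _)
    rw [card_range] at this
    exact_mod_cast this
  set κ : ℝ := 1 / (4 * M * η ^ 2) with hκ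
  have hκ0 : 0 ≤ κ := by rw [hκ]; positivity
  have hA0 : ∀ l i, 0 ≤ ∑ j ∈ J i, D M (x l i - j / M) := fun l i =>
    sum_nonneg fun j _ => D_nonneg _ _
  have hA1 : ∀ l i, ∑ j ∈ J i, D M (x l i - j / M) ≤ 1 := fun l i => by
    rw [← D_sum M hM (x l i)]
    exact sum_le_sum_of_subset_of_nonneg (filter_subset _ _) fun j _ _ => D_nonneg _ _
  have hpt1 : ∀ l ∈ T, ∀ i, 1 ≤ ∑ j ∈ J i, D M (x l i - j / M) + κ := by
    intro l hl i
    obtain ⟨n, hn1, hn2⟩ := hT1 l hl i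
    rw [← D_sum M hM (x l i), ← sum_filter_add_sum_filter_not (range M)
      (fun j : ℕ => ∃ n : ℤ, α i - η ≤ (j:ℝ) / M - n ∧ (j:ℝ) / M - n ≤ β i + η)]
    gcongr
    have h1 : ∀ j ∈ (range M).filter (fun j : ℕ => ¬ ∃ n : ℤ, α i - η ≤ (j:ℝ) / M - n ∧
        (j:ℝ) / M - n ≤ β i + η), D M (x l i - j / M) ≤ 1 / (4 * η ^ 2 * M ^ 2) := by
      intro j hj
      have hj2 := (mem_filter.1 hj).2
      push Not at hj2
      apply D_small M hM η hη
      intro k
      by_contra hcon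
      push Not at hcon
      rw [abs_lt] at hcon
      have h3 := hj2 (n - k) (by push_cast; linarith [hcon.1, hcon.2])
      push_cast at h3
      linarith [hcon.1, hcon.2]
    refine (sum_le_sum h1).trans ?_
    rw [sum_const, nsmul_eq_mul]
    have h6 : (((range M).filter (fun j : ℕ => ¬ ∃ n : ℤ, α i - η ≤ (j:ℝ) / M - n ∧
        (j:ℝ) / M - n ≤ β i + η)).card : ℝ) ≤ M := by
      have : ((range M).filter (fun j : ℕ => ¬ ∃ n : ℤ, α i - η ≤ (j:ℝ) / M - n ∧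
        (j:ℝ) / M - n ≤ β i + η)).card ≤ (range M).card := card_le_card (filter_subset _ _)
      rw [card_range] at this
      exact_mod_cast this
    calc _ ≤ (M:ℝ) * (1 / (4 * η ^ 2 * M ^ 2)) := by gcongr
      _ = κ := by rw [hκ]; field_simp
  have hpt : ∀ l ∈ T, 1 ≤ ∏ i, (∑ j ∈ J i, D M (x l i - j / M)) + d * κ := by
    intro l hl
    have := prod_le_add univ (fun _ : Fin d => (1 : ℝ)) (fun i => ∑ j ∈ J i, D M (x l i - j / M)) κ
      hκ0 (fun i _ => ⟨zero_le_one, le_rfl⟩) (fun i _ => ⟨hA0 l i, hA1 l i⟩)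
      (fun i _ => hpt1 l hl i)
    simpa using this
  have hTc : (T.card : ℝ) ≤ ∑ l ∈ range N, ∏ i, (∑ j ∈ J i, D M (x l i - j / M)) + N * (d * κ) := by
    calc (T.card : ℝ) = ∑ l ∈ T, (1:ℝ) := by simp
      _ ≤ ∑ l ∈ T, (∏ i, (∑ j ∈ J i, D M (x l i - j / M)) + d * κ) := sum_le_sum hpt
      _ ≤ ∑ l ∈ range N, (∏ i, (∑ j ∈ J i, D M (x l i - j / M)) + d * κ) := by
          apply sum_le_sum_of_subset_of_nonneg hT
          intro l _ _
          have : 0 ≤ ∏ i, (∑ j ∈ J i, D M (x l i - j / M)) := prod_nonneg fun i _ => hA0 _ _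
          positivity
      _ = _ := by rw [sum_add_distrib, sum_const, card_range, nsmul_eq_mul]
  have hsw : ∑ l ∈ range N, ∏ i, (∑ j ∈ J i, D M (x l i - j / M)) ≤
      (∏ i, ((J i).card : ℝ)) * (N / M ^ d + S) := by
    calc ∑ l ∈ range N, ∏ i, (∑ j ∈ J i, D M (x l i - j / M))
        = ∑ l ∈ range N, ∑ j ∈ Fintype.piFinset J, ∏ i, D M (x l i - (j i : ℝ) / M) := by
          refine sum_congr rfl fun l _ => ?_
          rw [prod_univ_sum]
      _ = ∑ j ∈ Fintype.piFinset J, ∑ l ∈ range N, ∏ i, D M (x l i - (j i : ℝ) / M) := sum_comm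
      _ ≤ ∑ j ∈ Fintype.piFinset J, (N / M ^ d + S) := by
          refine sum_le_sum fun j _ => ?_
          have := (abs_le.1 (mean_prod M hM x N S hS0 hS (fun i => (j i : ℝ) / M))).2
          linarith
      _ = _ := by
          rw [sum_const, nsmul_eq_mul, Fintype.card_piFinset]
          push_cast
          rfl
  have hprod : (∏ i, ((J i).card : ℝ)) / M ^ d ≤ ∏ i, (β i - α i) + d * (2 * η + 1 / M) := by
    have h1 := prod_le_add univ (fun i : Fin d => ((J i).card : ℝ) / M) (fun i => β i - α i)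
      (2 * η + 1 / M) (by positivity) (fun i _ => ⟨by positivity, by
        rw [div_le_one hMr]; exact hJM i⟩)
      (fun i _ => ⟨by linarith [hαβ i], hw i⟩) (fun i _ => hJc i)
    rw [prod_div_distrib] at h1
    simpa using h1
  have hprod2 : (∏ i, ((J i).card : ℝ)) ≤ M ^ d := by
    calc (∏ i, ((J i).card : ℝ)) ≤ ∏ _i : Fin d, (M : ℝ) :=
          prod_le_prod (fun i _ => Nat.cast_nonneg _) fun i _ => hJM i
      _ = _ := by simp
  calc (T.card : ℝ) ≤ (∏ i, ((J i).card : ℝ)) * (N / M ^ d + S) + N * (d * κ) := by linarith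
    _ = (∏ i, ((J i).card : ℝ)) / M ^ d * N + (∏ i, ((J i).card : ℝ)) * S + N * (d * κ) := by ring
    _ ≤ (∏ i, (β i - α i) + d * (2 * η + 1 / M)) * N + M ^ d * S + N * (d * κ) := by gcongr
    _ = _ := by ring

open Classical in
/-- lower bound for the number of points in a box -/
theorem box_lower (M : ℕ) (hM : 1 ≤ M) (η : ℝ) (hη : 0 < η) (x : ℕ → Fin d → ℝ) (N : ℕ) (S : ℝ)
    (hS0 : 0 ≤ S)
    (hS : ∀ h : Fin d → ℤ, h ≠ 0 → (∀ i, |h i| < M) →
      ‖∑ l ∈ range N, e (∑ i, h i * x l i)‖ ≤ S) (α β : Fin d → ℝ) (hα : ∀ i, 0 ≤ α i)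
    (hαβ : ∀ i, α i ≤ β i) (hβ : ∀ i, β i ≤ 1) :
    N * (∏ i, (β i - α i)) - N * d * (2 * η + 1 / M) - N * (1 / (4 * M * η ^ 2)) - M ^ d * S ≤
      (((range N).filter (fun l : ℕ => ∀ i, α i ≤ Int.fract (x l i) ∧ Int.fract (x l i) < β i)).card
        : ℝ) := by
  have hMr : (0:ℝ) < M := by exact_mod_cast hM
  have hN0 : (0:ℝ) ≤ N := Nat.cast_nonneg _
  set J : Fin d → Finset ℕ := fun i => (range M).filter
    (fun j : ℕ => α i + η ≤ (j:ℝ) / M ∧ (j:ℝ) / M ≤ β i - η) with hJ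
  set T : Finset ℕ := (range N).filter
    (fun l : ℕ => ∀ i, α i ≤ Int.fract (x l i) ∧ Int.fract (x l i) < β i) with hT
  have hJc : ∀ i, β i - α i ≤ ((J i).card : ℝ) / M + (2 * η + 1 / M) := by
    intro i
    have := grid_lower M hM (α i + η) (β i - η) (by linarith [hα i]) (by linarith [hβ i])
    have h2 : β i - α i - (2 * η + 1 / M) ≤ ((J i).card : ℝ) / M := by
      rw [le_div_iff₀ hMr]
      refine (le_of_eq ?_).trans this
      field_simp
      ring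
    linarith
  have hJM : ∀ i, ((J i).card : ℝ) ≤ M := by
    intro i
    have : (J i).card ≤ (range M).card := card_le_card (filter_subset _ _)
    rw [card_range] at this
    exact_mod_cast this
  set κ : ℝ := 1 / (4 * M * η ^ 2) with hκ
  have hκ0 : 0 ≤ κ := by rw [hκ]; positivity
  have hA0 : ∀ l i, 0 ≤ ∑ j ∈ J i, D M (x l i - j / M) := fun l i =>
    sum_nonneg fun j _ => D_nonneg _ _
  have hA1 : ∀ l i, ∑ j ∈ J i, D M (x l i - j / M) ≤ 1 := fun l i => by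
    rw [← D_sum M hM (x l i)]
    exact sum_le_sum_of_subset_of_nonneg (filter_subset _ _) fun j _ _ => D_nonneg _ _
  have hbad : ∀ l ∈ range N, l ∉ T → ∏ i, (∑ j ∈ J i, D M (x l i - j / M)) ≤ κ := by
    intro l hl hlT
    have h1 : ∃ i, ¬ (α i ≤ Int.fract (x l i) ∧ Int.fract (x l i) < β i) := by
      by_contra hcon
      push Not at hcon
      exact hlT (mem_filter.2 ⟨hl, hcon⟩)
    obtain ⟨i, hi⟩ := h1
    have h2 : ∑ j ∈ J i, D M (x l i - j / M) ≤ κ := by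
      have h3 : ∀ j ∈ J i, D M (x l i - j / M) ≤ 1 / (4 * η ^ 2 * M ^ 2) := by
        intro j hj
        obtain ⟨_, hj1, hj2⟩ := mem_filter.1 hj
        apply D_small M hM η hη
        intro n
        by_contra hcon
        push Not at hcon
        rw [abs_lt] at hcon
        have hfl := Int.floor_add_fract (x l i)
        have hf0 := Int.fract_nonneg (x l i)
        have hf1 := Int.fract_lt_one (x l i)
        have hn : (⌊x l i⌋ : ℤ) = n := by
          rw [Int.floor_eq_iff]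
          constructor
          · linarith [hcon.1, hcon.2, hα i]
          · linarith [hcon.1, hcon.2, hβ i]
        apply hi
        have hn' : ((⌊x l i⌋ : ℤ) : ℝ) = n := by exact_mod_cast hn
        constructor
        · linarith [hcon.1, hcon.2]
        · linarith [hcon.1, hcon.2]
      refine (sum_le_sum h3).trans ?_
      rw [sum_const, nsmul_eq_mul]
      calc _ ≤ (M:ℝ) * (1 / (4 * η ^ 2 * M ^ 2)) := by gcongr; exact_mod_cast hJM i
        _ = κ := by rw [hκ]; field_simp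
    rw [← mul_prod_erase univ _ (mem_univ i)]
    have h4 : ∏ i' ∈ univ.erase i, (∑ j ∈ J i', D M (x l i' - j / M)) ≤ 1 :=
      prod_le_one (fun i' _ => hA0 l i') fun i' _ => hA1 l i'
    have h5 : 0 ≤ ∏ i' ∈ univ.erase i, (∑ j ∈ J i', D M (x l i' - j / M)) :=
      prod_nonneg fun i' _ => hA0 l i'
    calc _ ≤ κ * 1 := by gcongr
      _ = κ := mul_one _
  have hTc : ∑ l ∈ range N, ∏ i, (∑ j ∈ J i, D M (x l i - j / M)) ≤ T.card + N * κ := by
    rw [← sum_filter_add_sum_filter_not (range N) (fun l => l ∈ T)]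
    have h1 : ∑ l ∈ (range N).filter (fun l => l ∈ T), ∏ i, (∑ j ∈ J i, D M (x l i - j / M)) ≤
        T.card := by
      have h2 : (range N).filter (fun l => l ∈ T) = T := by
        ext l
        rw [mem_filter]
        exact ⟨fun h => h.2, fun h => ⟨(mem_filter.1 h).1, h⟩⟩
      rw [h2]
      calc _ ≤ ∑ _l ∈ T, (1 : ℝ) := sum_le_sum fun l _ =>
            prod_le_one (fun i' _ => hA0 l i') fun i' _ => hA1 l i'
        _ = _ := by simp
    have h3 : ∑ l ∈ (range N).filter (fun l => ¬ l ∈ T), ∏ i, (∑ j ∈ J i, D M (x l i - j / M)) ≤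
        N * κ := by
      calc _ ≤ ∑ _l ∈ (range N).filter (fun l => ¬ l ∈ T), κ := sum_le_sum fun l hl =>
            hbad l (mem_filter.1 hl).1 (mem_filter.1 hl).2
        _ = ((range N).filter (fun l => ¬ l ∈ T)).card * κ := by rw [sum_const, nsmul_eq_mul]
        _ ≤ _ := by
            gcongr
            have : ((range N).filter (fun l => ¬ l ∈ T)).card ≤ (range N).card :=
              card_le_card (filter_subset _ _)
            rw [card_range] at this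
            exact_mod_cast this
    linarith
  have hprod2 : (∏ i, ((J i).card : ℝ)) ≤ M ^ d := by
    calc (∏ i, ((J i).card : ℝ)) ≤ ∏ _i : Fin d, (M : ℝ) :=
          prod_le_prod (fun i _ => Nat.cast_nonneg _) fun i _ => hJM i
      _ = _ := by simp
  have hsw : (∏ i, ((J i).card : ℝ)) / M ^ d * N - M ^ d * S ≤
      ∑ l ∈ range N, ∏ i, (∑ j ∈ J i, D M (x l i - j / M)) := by
    calc (∏ i, ((J i).card : ℝ)) / M ^ d * N - M ^ d * S
        ≤ (∏ i, ((J i).card : ℝ)) / M ^ d * N - (∏ i, ((J i).card : ℝ)) * S := by gcongr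
      _ = (∏ i, ((J i).card : ℝ)) * (N / M ^ d - S) := by ring
      _ = ∑ j ∈ Fintype.piFinset J, ((N : ℝ) / M ^ d - S) := by
          rw [sum_const, nsmul_eq_mul, Fintype.card_piFinset]
          push_cast
          rfl
      _ ≤ ∑ j ∈ Fintype.piFinset J, ∑ l ∈ range N, ∏ i, D M (x l i - (j i : ℝ) / M) := by
          refine sum_le_sum fun j _ => ?_
          have := (abs_le.1 (mean_prod M hM x N S hS0 hS (fun i => (j i : ℝ) / M))).1
          linarith
      _ = ∑ l ∈ range N, ∑ j ∈ Fintype.piFinset J, ∏ i, D M (x l i - (j i : ℝ) / M) := sum_comm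
      _ = _ := by
          refine sum_congr rfl fun l _ => ?_
          rw [prod_univ_sum]
  have hprod : ∏ i, (β i - α i) ≤ (∏ i, ((J i).card : ℝ)) / M ^ d + d * (2 * η + 1 / M) := by
    have h1 := prod_le_add univ (fun i => β i - α i) (fun i : Fin d => ((J i).card : ℝ) / M)
      (2 * η + 1 / M) (by positivity)
      (fun i _ => ⟨by linarith [hαβ i], by linarith [hα i, hβ i]⟩)
      (fun i _ => ⟨by positivity, by rw [div_le_one hMr]; exact hJM i⟩) (fun i _ => hJc i)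
    rw [prod_div_distrib] at h1
    simpa using h1
  have h9 : N * (∏ i, (β i - α i)) ≤
      N * ((∏ i, ((J i).card : ℝ)) / M ^ d + d * (2 * η + 1 / M)) := by gcongr
  nlinarith

open Classical in
/-- **joint discrepancy** -/
theorem jdisc (m : ℕ) (hm : 1 ≤ m) (hd : 1 ≤ d) (x : ℕ → Fin d → ℝ) (N : ℕ) (S : ℝ) (hS0 : 0 ≤ S)
    (hS : ∀ h : Fin d → ℤ, h ≠ 0 → (∀ i, |h i| < ((m ^ 3 : ℕ) : ℤ)) →
      ‖∑ l ∈ range N, e (∑ i, h i * x l i)‖ ≤ S)
    (α β : Fin d → ℝ) (hα : ∀ i, 0 ≤ α i) (hαβ : ∀ i, α i ≤ β i) (hβ : ∀ i, β i ≤ 1) :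
    |(((range N).filter (fun l : ℕ => ∀ i, α i ≤ Int.fract (x l i) ∧
      Int.fract (x l i) < β i)).card : ℝ) - (∏ i, (β i - α i)) * N| ≤
      4 * d * N / m + (m : ℝ) ^ (3 * d) * S := by
  have hmr : (1:ℝ) ≤ m := by exact_mod_cast hm
  have hm0 : (0:ℝ) < m := by linarith
  have hN0 : (0:ℝ) ≤ N := Nat.cast_nonneg _
  have hdr : (1:ℝ) ≤ d := by exact_mod_cast hd
  have hM : 1 ≤ m ^ 3 := Nat.one_le_pow _ _ (by omega)
  have hη : (0 : ℝ) < 1 / m := by positivity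
  have h1 := box_upper (m ^ 3) hM (1 / m) hη x N S hS0 hS α β hαβ
    (fun i => by linarith [hα i, hβ i])
    ((range N).filter (fun l : ℕ => ∀ i, α i ≤ Int.fract (x l i) ∧ Int.fract (x l i) < β i))
    (filter_subset _ _) (fun l hl i => ⟨⌊x l i⌋, by
      have h3 := (mem_filter.1 hl).2 i
      have hfl := Int.floor_add_fract (x l i)
      constructor
      · linarith [h3.1]
      · linarith [h3.2]⟩)
  have h2 := box_lower (m ^ 3) hM (1 / m) hη x N S hS0 hS α β hα hαβ hβ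
  have e1 : (1 : ℝ) / (4 * ((m ^ 3 : ℕ) : ℝ) * (1 / (m:ℝ)) ^ 2) = 1 / 4 / m := by
    push_cast
    field_simp
  have e2 : (1 : ℝ) / ((m ^ 3 : ℕ) : ℝ) ≤ 1 / m := by
    push_cast
    apply one_div_le_one_div_of_le hm0
    calc (m : ℝ) = m ^ 1 := (pow_one _).symm
      _ ≤ _ := pow_le_pow_right₀ hmr (by norm_num)
  have e3 : ((m ^ 3 : ℕ) : ℝ) ^ d = (m : ℝ) ^ (3 * d) := by
    push_cast
    rw [pow_mul]
  rw [e1, e3] at h1 h2
  have e4 : 4 * d * (N : ℝ) / m = N * d * (4 * (1 / m)) := by ring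
  have hNd : (0 : ℝ) ≤ N * d := by positivity
  have e5 : N * d * (2 * (1 / (m : ℝ)) + 1 / ((m ^ 3 : ℕ) : ℝ)) ≤ N * d * (3 * (1 / m)) := by
    gcongr
    linarith
  have e6 : N * (1 / 4 / (m : ℝ)) ≤ N * d * (1 * (1 / m)) := by
    calc N * (1 / 4 / (m : ℝ)) = N * 1 * (1 / 4 * (1 / m)) := by ring
      _ ≤ _ := by gcongr; norm_num
  have e7 : N * d * (2 * (1 / (m : ℝ)) + 1 / ((m ^ 3 : ℕ) : ℝ) + 1 / 4 / m) ≤
      N * d * (4 * (1 / m)) := by
    gcongr
    have : 1 / 4 / (m : ℝ) = 1 / 4 * (1 / m) := by ring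
    rw [this]
    nlinarith
  rw [e4, abs_le]
  constructor
  · nlinarith
  · nlinarith

end Pool.Agent.Q204.NN
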