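import Mathlib
import Pool.Agent.Q77.Cos.Bad
import Pool.Agent.Q204.NN.Joint

/-!
Second moments of the joint exponential sums over the translates by `j / s ^ n`, and the number of
translates which are not jointly `ε`-normal.
-/

set_option autoImplicit false

open Finset

namespace Pool.Agent.Q204.NN

open Pool.Agent.H332R2.Lit (e e_add norm_e e_zero conj_e e_nat_mul normSq_sum norm_geom_le)
open Pool.Agent.Q77.Cos (complete card_class kap kap_pos ord_lower)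

variable {d : ℕ}

/-- exponential sum of the joint orbit -/
noncomputable def WW (b t : Fin d → ℕ) (h : Fin d → ℤ) (N : ℕ) (y : Fin d → ℝ) : ℂ :=
  ∑ m ∈ range N, e (∑ i, h i * ((b i : ℝ) ^ (t i + m) * y i))

open Classical in
/-- second moment by counting -/
lemma second_d (b t : Fin d → ℕ) (q : ℕ) (hq : 0 < q) (h : Fin d → ℤ) (N : ℕ) (x : Fin d → ℝ)
    (i0 : Fin d) :
    ∑ j ∈ Fintype.piFinset (fun _ : Fin d => range q),
      ‖WW b t h N (fun i => x i + (j i : ℝ) / q)‖ ^ 2 ≤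
      q ^ d * (((range N ×ˢ range N).filter (fun p : ℕ × ℕ =>
        (q : ℤ) ∣ h i0 * (b i0 : ℤ) ^ t i0 * ((b i0 : ℤ) ^ p.1 - (b i0 : ℤ) ^ p.2))).card : ℝ) := by
  have hqR : (q : ℝ) ≠ 0 := by exact_mod_cast hq.ne'
  set A : ℕ → ℝ := fun m => ∑ i, h i * ((b i : ℝ) ^ (t i + m) * x i) with hA
  set Mi : ℕ → ℕ → Fin d → ℤ := fun m l i =>
    h i * (b i : ℤ) ^ t i * ((b i : ℤ) ^ m - (b i : ℤ) ^ l) with hMi
  have h1 : ((∑ j ∈ Fintype.piFinset (fun _ : Fin d => range q),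
      ‖WW b t h N (fun i => x i + (j i : ℝ) / q)‖ ^ 2 : ℝ) : ℂ) =
      ∑ m ∈ range N, ∑ l ∈ range N,
        e (A m - A l) * ∏ i, (if (q : ℤ) ∣ Mi m l i then (q : ℂ) else 0) := by
    rw [Complex.ofReal_sum]
    have h2 : ∀ j ∈ Fintype.piFinset (fun _ : Fin d => range q),
        ((‖WW b t h N (fun i => x i + (j i : ℝ) / q)‖ ^ 2 : ℝ) : ℂ) =
        ∑ m ∈ range N, ∑ l ∈ range N,
          e (A m - A l) * ∏ i, e ((j i : ℝ) * (((Mi m l i : ℤ) : ℝ) / q)) := by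
      intro j _
      unfold WW
      rw [normSq_sum]
      refine Finset.sum_congr rfl fun m _ => Finset.sum_congr rfl fun l _ => ?_
      rw [← e_sum, ← e_add]
      congr 1
      simp only [hA, hMi]
      rw [← sum_sub_distrib, ← sum_sub_distrib, ← sum_add_distrib]
      refine sum_congr rfl fun i _ => ?_
      push_cast
      field_simp
      ring
    rw [Finset.sum_congr rfl h2, Finset.sum_comm]
    refine Finset.sum_congr rfl fun m _ => ?_
    rw [Finset.sum_comm]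
    refine Finset.sum_congr rfl fun l _ => ?_
    rw [← Finset.mul_sum]
    congr 1
    have h3 := (prod_univ_sum (fun _ : Fin d => range q)
      (fun (i : Fin d) (k : ℕ) => e ((k : ℝ) * (((Mi m l i : ℤ) : ℝ) / q)))).symm
    rw [h3]
    exact prod_congr rfl fun i _ => complete q hq _
  have h0 : 0 ≤ ∑ j ∈ Fintype.piFinset (fun _ : Fin d => range q),
      ‖WW b t h N (fun i => x i + (j i : ℝ) / q)‖ ^ 2 :=
    Finset.sum_nonneg fun m _ => by positivity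
  have h3 : ∑ j ∈ Fintype.piFinset (fun _ : Fin d => range q),
      ‖WW b t h N (fun i => x i + (j i : ℝ) / q)‖ ^ 2 =
      ‖((∑ j ∈ Fintype.piFinset (fun _ : Fin d => range q),
      ‖WW b t h N (fun i => x i + (j i : ℝ) / q)‖ ^ 2 : ℝ) : ℂ)‖ := by
    rw [Complex.norm_real, Real.norm_of_nonneg h0]
  rw [h3, h1]
  have h4 : ∀ m l, ‖e (A m - A l) * ∏ i, (if (q : ℤ) ∣ Mi m l i then (q : ℂ) else 0)‖ ≤
      (if (q : ℤ) ∣ Mi m l i0 then (q : ℝ) ^ d else 0) := by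
    intro m l
    rw [norm_mul, norm_e, one_mul, norm_prod]
    split_ifs with hd
    · calc ∏ i, ‖(if (q : ℤ) ∣ Mi m l i then (q : ℂ) else 0)‖ ≤ ∏ _i : Fin d, (q : ℝ) := by
            refine prod_le_prod (fun i _ => norm_nonneg _) fun i _ => ?_
            split_ifs
            · rw [Complex.norm_natCast]
            · simp
        _ = _ := by simp
    · apply le_of_eq
      apply prod_eq_zero (mem_univ i0)
      rw [if_neg hd, norm_zero]
  calc _ ≤ ∑ m ∈ range N, ∑ l ∈ range N,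
        ‖e (A m - A l) * ∏ i, (if (q : ℤ) ∣ Mi m l i then (q : ℂ) else 0)‖ :=
        (norm_sum_le _ _).trans (Finset.sum_le_sum fun m _ => norm_sum_le _ _)
    _ ≤ ∑ m ∈ range N, ∑ l ∈ range N, (if (q : ℤ) ∣ Mi m l i0 then (q : ℝ) ^ d else 0) :=
        sum_le_sum fun m _ => sum_le_sum fun l _ => h4 m l
    _ = ∑ p ∈ range N ×ˢ range N, (if (q : ℤ) ∣ Mi p.1 p.2 i0 then (q : ℝ) ^ d else 0) := by
        rw [Finset.sum_product]
    _ = _ := by
        rw [← Finset.sum_filter, Finset.sum_const, nsmul_eq_mul]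
        ring

open Classical in
/-- the number of pairs -/
lemma pairs_le (b s : ℕ) (hb : 2 ≤ b) (hs : 1 ≤ s) (hcop : Nat.Coprime b s) (n N : ℕ)
    (hN : s ^ n ≤ N) (h : ℤ) (hh : h ≠ 0) (t : ℕ) :
    ((s ^ n : ℕ) : ℝ) * (((range N ×ˢ range N).filter (fun p : ℕ × ℕ =>
        ((s ^ n : ℕ) : ℤ) ∣ h * (b : ℤ) ^ t * ((b : ℤ) ^ p.1 - (b : ℤ) ^ p.2))).card : ℝ) ≤
      2 * kap b s * |(h : ℝ)| * (N : ℝ) ^ 2 := by
  set q := s ^ n with hqdef
  have hq : 0 < q := Nat.pow_pos (by omega)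
  have hcq : Nat.Coprime b q := Nat.Coprime.pow_right n hcop
  have h1 := Pool.Agent.Q77.Cos.pairs b q hq hcq (h * (b : ℤ) ^ t) N
  set g := Int.gcd (h * (b : ℤ) ^ t) q with hg
  have hgpos : 0 < g := Int.gcd_pos_of_ne_zero_right _ (by exact_mod_cast hq.ne')
  have hgq : g ∣ q := by
    have := Int.gcd_dvd_right (h * (b : ℤ) ^ t) (q : ℤ)
    exact_mod_cast this
  set D := q / g with hd
  have hdpos : 0 < D := Nat.div_pos (Nat.le_of_dvd hq hgq) hgpos
  have hdq : D ∣ q := Nat.div_dvd_of_dvd hgq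
  have hcd : (D : ℝ) ≤ kap b s * orderOf (b : ZMod D) := by
    exact_mod_cast ord_lower b s hb hs hcop n D hdq
  set o := orderOf (b : ZMod D) with ho
  have ho0 : 0 < o := by
    rcases Nat.eq_zero_or_pos o with h0 | h0
    · rw [h0] at hcd
      simp only [Nat.cast_zero, mul_zero] at hcd
      have : (0 : ℝ) < D := by exact_mod_cast hdpos
      linarith
    · exact h0
  have hoR : (0 : ℝ) < o := by exact_mod_cast ho0
  have hqd : (q : ℝ) = g * D := by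
    have : q = g * D := by rw [hd]; exact (Nat.mul_div_cancel' hgq).symm
    exact_mod_cast this
  have hgh : (g : ℝ) ≤ |(h : ℝ)| := by
    have h2 : g ∣ h.natAbs := by
      have h3 : (g : ℤ) ∣ h * (b : ℤ) ^ t := Int.gcd_dvd_left _ _
      have h4 : IsCoprime (g : ℤ) ((b : ℤ) ^ t) := by
        apply IsCoprime.pow_right
        rw [Nat.isCoprime_iff_coprime]
        exact (hcq.coprime_dvd_right hgq).symm
      have h5 := h4.dvd_of_dvd_mul_right h3
      exact Int.natCast_dvd.1 h5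
    have h3 : ((h.natAbs : ℕ) : ℝ) = |(h : ℝ)| := by
      rw [Nat.cast_natAbs]
      push_cast
      rfl
    rw [← h3]
    exact_mod_cast Nat.le_of_dvd (Int.natAbs_pos.2 hh) h2
  have hk : (1 : ℝ) ≤ kap b s := by exact_mod_cast kap_pos b s hb hs
  have hh1 : (1 : ℝ) ≤ |(h : ℝ)| := by
    have : 1 ≤ |h| := Int.one_le_abs hh
    exact_mod_cast this
  have hNR : (q : ℝ) ≤ N := by exact_mod_cast hN
  have hN0 : (0 : ℝ) ≤ N := Nat.cast_nonneg _
  have h2 : (((range N ×ˢ range N).filter (fun p : ℕ × ℕ =>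
        (q : ℤ) ∣ h * (b : ℤ) ^ t * ((b : ℤ) ^ p.1 - (b : ℤ) ^ p.2))).card : ℝ) ≤
        N * ((N : ℝ) / o + 1) := by
    refine (Nat.cast_le.2 h1).trans ?_
    push_cast
    have := @Nat.cast_div_le ℝ _ _ _ N o
    gcongr
  calc (q : ℝ) * _ ≤ q * (N * ((N : ℝ) / o + 1)) := by gcongr
    _ = (g * (D / o)) * (N : ℝ) ^ 2 + q * N := by rw [hqd]; field_simp
    _ ≤ (|(h : ℝ)| * kap b s) * (N : ℝ) ^ 2 + N * N := by
        have h3 : (D : ℝ) / o ≤ kap b s := by rw [div_le_iff₀ hoR]; exact hcd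
        gcongr
    _ = (|(h : ℝ)| * kap b s) * (N : ℝ) ^ 2 + 1 * 1 * (N : ℝ) ^ 2 := by ring
    _ ≤ (|(h : ℝ)| * kap b s) * (N : ℝ) ^ 2 + |(h : ℝ)| * kap b s * (N : ℝ) ^ 2 := by gcongr
    _ = _ := by ring

/-- the second moment -/
theorem moment_d (b t : Fin d → ℕ) (s : ℕ) (hs : 1 ≤ s) (n N : ℕ) (hN : s ^ n ≤ N)
    (h : Fin d → ℤ) (i0 : Fin d) (hb : 2 ≤ b i0) (hcop : Nat.Coprime (b i0) s) (hh : h i0 ≠ 0)
    (x : Fin d → ℝ) :
    ∑ j ∈ Fintype.piFinset (fun _ : Fin d => range (s ^ n)),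
      ‖WW b t h N (fun i => x i + (j i : ℝ) / (s : ℝ) ^ n)‖ ^ 2 ≤
      2 * kap (b i0) s * |(h i0 : ℝ)| * ((s : ℝ) ^ n) ^ (d - 1) * (N : ℝ) ^ 2 := by
  classical
  have hq : 0 < s ^ n := Nat.pow_pos (by omega)
  have h1 := second_d b t (s ^ n) hq h N x i0
  have h2 := pairs_le (b i0) s hb hs hcop n N hN (h i0) hh (t i0)
  have hd : (d - 1) + 1 = d := by have := i0.pos; omega
  push_cast at h1 h2 ⊢
  refine h1.trans ?_
  have hs0 : (0 : ℝ) ≤ ((s : ℝ) ^ n) ^ (d - 1) := by positivity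
  have h3 := mul_le_mul_of_nonneg_left h2 hs0
  calc _ = ((s : ℝ) ^ n) ^ (d - 1 + 1) * _ := by rw [hd]
    _ = ((s : ℝ) ^ n) ^ (d - 1) * ((s : ℝ) ^ n * _) := by rw [pow_succ, mul_assoc]
    _ ≤ _ := h3
    _ = _ := by ring

/-- jointly `ε`-normal up to `N` -/
def JN (b t : Fin d → ℕ) (ε : ℝ) (N : ℕ) (y : Fin d → ℝ) : Prop :=
  ∀ α β : Fin d → ℝ, (∀ i, 0 ≤ α i) → (∀ i, α i ≤ β i) → (∀ i, β i ≤ 1) →
    |(({m : ℕ | m < N ∧ ∀ i, α i ≤ Int.fract ((b i : ℝ) ^ (t i + m) * y i) ∧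
      Int.fract ((b i : ℝ) ^ (t i + m) * y i) < β i}.ncard : ℕ) : ℝ) -
      (∏ i, (β i - α i)) * N| ≤ ε * N

/-- small exponential sums give joint normality -/
lemma jn_of_small (hd : 1 ≤ d) (b t : Fin d → ℕ) (m : ℕ) (hm : 1 ≤ m) (ε : ℝ)
    (hm8 : 8 * d ≤ ε * m) (N : ℕ) (y : Fin d → ℝ)
    (hε : 0 < ε)
    (hgood : ∀ h : Fin d → ℤ, h ≠ 0 → (∀ i, |h i| < ((m ^ 3 : ℕ) : ℤ)) →
      ‖WW b t h N y‖ ≤ ε * N / (2 * (m : ℝ) ^ (3 * d))) : JN b t ε N y := by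
  classical
  intro α β hα hαβ hβ
  have hmR : (0 : ℝ) < m := by exact_mod_cast hm
  have hN0 : (0 : ℝ) ≤ N := Nat.cast_nonneg _
  have h2 := jdisc m hm hd (fun l i => (b i : ℝ) ^ (t i + l) * y i) N
    (ε * N / (2 * (m : ℝ) ^ (3 * d))) (by positivity) hgood α β hα hαβ hβ
  have h3 : {l : ℕ | l < N ∧ ∀ i, α i ≤ Int.fract ((b i : ℝ) ^ (t i + l) * y i) ∧
      Int.fract ((b i : ℝ) ^ (t i + l) * y i) < β i}.ncard =
      ((range N).filter (fun l : ℕ => ∀ i, α i ≤ Int.fract ((b i : ℝ) ^ (t i + l) * y i) ∧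
      Int.fract ((b i : ℝ) ^ (t i + l) * y i) < β i)).card := by
    rw [← Set.ncard_coe_finset]
    congr 1
    ext l
    simp
  rw [h3]
  refine h2.trans ?_
  have h4 : (m : ℝ) ^ (3 * d) * (ε * N / (2 * (m : ℝ) ^ (3 * d))) = ε * N / 2 := by
    field_simp
  have h5 : 4 * (d : ℝ) * (N : ℝ) / m ≤ ε * N / 2 := by
    rw [div_le_iff₀ hmR]
    nlinarith
  rw [h4]
  linarith

/-- the frequencies -/
noncomputable def PP (d M : ℕ) : Finset (Fin d → ℤ) :=
  (Fintype.piFinset fun _ : Fin d => Ioo (-(M : ℤ)) (M : ℤ)).erase 0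

lemma mem_PP {d M : ℕ} {h : Fin d → ℤ} : h ∈ PP d M ↔ h ≠ 0 ∧ ∀ i, |h i| < (M : ℤ) := by
  unfold PP
  rw [mem_erase, Fintype.mem_piFinset]
  simp only [mem_Ioo, abs_lt]

lemma card_PP (d M : ℕ) : ((PP d M).card : ℝ) ≤ (2 * (M : ℝ)) ^ d := by
  have h1 : (PP d M).card ≤ (2 * M) ^ d := by
    unfold PP
    refine (Finset.card_erase_le).trans ?_
    rw [Fintype.card_piFinset]
    simp only [Int.card_Ioo, prod_const, card_univ, Fintype.card_fin]
    apply Nat.pow_le_pow_left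
    omega
  exact_mod_cast h1

lemma choose_m (hd : 1 ≤ d) (ε : ℝ) (hε : 0 < ε) (hε1 : ε ≤ 1) :
    ∃ m : ℕ, 1 ≤ m ∧ 8 * (d : ℝ) ≤ ε * m ∧ (m : ℝ) ≤ 9 * d / ε := by
  have hdR : (1 : ℝ) ≤ d := by exact_mod_cast hd
  have hd0 : (0 : ℝ) < d := by linarith
  refine ⟨⌈8 * d / ε⌉₊, ?_, ?_, ?_⟩
  · have : (0 : ℝ) < (⌈8 * d / ε⌉₊ : ℕ) := lt_of_lt_of_le (by positivity) (Nat.le_ceil _)
    exact_mod_cast this
  · have := Nat.le_ceil (8 * d / ε)
    rw [div_le_iff₀ hε] at this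
    linarith
  · have h1 := Nat.ceil_lt_add_one (by positivity : (0 : ℝ) ≤ 8 * d / ε)
    have h2 : 1 ≤ d / ε := by rw [le_div_iff₀ hε]; linarith
    have h3 : 9 * d / ε = 8 * d / ε + d / ε := by ring
    rw [h3]
    linarith

open Classical in
/-- the number of bad translates -/
theorem bad_d (hd : 1 ≤ d) (b t : Fin d → ℕ) (s : ℕ) (hs : 1 ≤ s) (hb : ∀ i, 2 ≤ b i)
    (hcop : ∀ i, (b i).Coprime s) (K : ℝ) (hK : ∀ i, (kap (b i) s : ℝ) ≤ K) (n N : ℕ)
    (hN : s ^ n ≤ N) (ε : ℝ) (hε : 0 < ε) (hε1 : ε ≤ 1) (x : Fin d → ℝ) :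
    (((Fintype.piFinset (fun _ : Fin d => range (s ^ n))).filter (fun j =>
      ¬ JN b t ε N (fun i => x i + (j i : ℝ) / (s : ℝ) ^ n))).card : ℝ) ≤
      2 ^ (d + 3) * (9 * d) ^ (9 * d + 3) * K * ((s : ℝ) ^ n) ^ (d - 1) / ε ^ (9 * d + 5) := by
  have hNpos : 0 < N := lt_of_lt_of_le (Nat.pow_pos (by omega)) hN
  have hN0 : (0 : ℝ) < N := by exact_mod_cast hNpos
  have hdR : (1 : ℝ) ≤ d := by exact_mod_cast hd
  obtain ⟨m, hm1, hm8, hm9⟩ := choose_m hd ε hε hε1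
  have hmR : (0 : ℝ) < m := by exact_mod_cast hm1
  set i1 : Fin d := ⟨0, hd⟩
  have hK0 : 0 ≤ K := (Nat.cast_nonneg _).trans (hK i1)
  set M : ℕ := m ^ 3 with hM
  set S : ℝ := ε * N / (2 * (m : ℝ) ^ (3 * d)) with hS
  have hS0 : 0 < S := by rw [hS]; positivity
  set Q : ℝ := ((s : ℝ) ^ n) ^ (d - 1) with hQ
  have hQ0 : 0 ≤ Q := by positivity
  set Bd : (Fin d → ℤ) → Finset (Fin d → ℕ) := fun h =>
    (Fintype.piFinset (fun _ : Fin d => range (s ^ n))).filter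
      (fun j => S < ‖WW b t h N (fun i => x i + (j i : ℝ) / (s : ℝ) ^ n)‖) with hBd
  have hone : ∀ h ∈ PP d M, ((Bd h).card : ℝ) ≤
      2 * K * M * Q * (4 * (m : ℝ) ^ (6 * d) / ε ^ 2) := by
    intro h hh
    rw [mem_PP] at hh
    obtain ⟨hh0, hh1⟩ := hh
    obtain ⟨i0, hi0⟩ := Function.ne_iff.1 hh0
    have habs : |(h i0 : ℝ)| ≤ M := by
      exact_mod_cast (hh1 i0).le
    have h1 := moment_d b t s hs n N hN h i0 (hb i0) (hcop i0) hi0 x
    have h2 : ((Bd h).card : ℝ) * S ^ 2 ≤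
        ∑ j ∈ Fintype.piFinset (fun _ : Fin d => range (s ^ n)),
          ‖WW b t h N (fun i => x i + (j i : ℝ) / (s : ℝ) ^ n)‖ ^ 2 := by
      calc ((Bd h).card : ℝ) * S ^ 2 = ∑ _k ∈ Bd h, S ^ 2 := by
            rw [Finset.sum_const, nsmul_eq_mul]
        _ ≤ ∑ j ∈ Bd h, ‖WW b t h N (fun i => x i + (j i : ℝ) / (s : ℝ) ^ n)‖ ^ 2 := by
            refine Finset.sum_le_sum fun k hk => ?_
            have h2 := (Finset.mem_filter.1 hk).2
            exact pow_le_pow_left₀ hS0.le h2.le 2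
        _ ≤ _ := Finset.sum_le_sum_of_subset_of_nonneg (Finset.filter_subset _ _)
            fun k _ _ => by positivity
    have h3 : 2 * (kap (b i0) s : ℝ) * |(h i0 : ℝ)| * Q * (N : ℝ) ^ 2 ≤
        (2 * K * M * Q * (4 * (m : ℝ) ^ (6 * d) / ε ^ 2)) * S ^ 2 := by
      have e1 : (4 * (m : ℝ) ^ (6 * d) / ε ^ 2) * S ^ 2 = (N : ℝ) ^ 2 := by
        rw [hS, show 6 * d = 3 * d + 3 * d by ring, pow_add]
        field_simp
        ring
      calc _ ≤ 2 * K * M * Q * (N : ℝ) ^ 2 := by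
            have := hK i0
            gcongr
        _ = _ := by rw [← e1]; ring
    exact le_of_mul_le_mul_right ((h2.trans h1).trans h3) (by positivity)
  have hsub : (Fintype.piFinset (fun _ : Fin d => range (s ^ n))).filter (fun j =>
      ¬ JN b t ε N (fun i => x i + (j i : ℝ) / (s : ℝ) ^ n)) ⊆ (PP d M).biUnion Bd := by
    intro j hj
    rw [Finset.mem_filter] at hj
    by_contra hnot
    apply hj.2
    apply jn_of_small hd b t m hm1 ε hm8 N _ hε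
    intro h hh0 hh1
    by_contra hcon
    push Not at hcon
    apply hnot
    rw [Finset.mem_biUnion]
    exact ⟨h, mem_PP.2 ⟨hh0, hh1⟩, mem_filter.2 ⟨hj.1, hcon⟩⟩
  calc _ ≤ (((PP d M).biUnion Bd).card : ℝ) := by exact_mod_cast Finset.card_le_card hsub
    _ ≤ ((∑ p ∈ PP d M, (Bd p).card : ℕ) : ℝ) := by exact_mod_cast Finset.card_biUnion_le
    _ = ∑ p ∈ PP d M, ((Bd p).card : ℝ) := by push_cast; rfl
    _ ≤ ∑ _p ∈ PP d M, (2 * K * M * Q * (4 * (m : ℝ) ^ (6 * d) / ε ^ 2) : ℝ) :=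
        Finset.sum_le_sum hone
    _ = (PP d M).card * (2 * K * M * Q * (4 * (m : ℝ) ^ (6 * d) / ε ^ 2)) := by
        rw [Finset.sum_const, nsmul_eq_mul]
    _ ≤ (2 * (M : ℝ)) ^ d * (2 * K * M * Q * (4 * (m : ℝ) ^ (6 * d) / ε ^ 2)) := by
        apply mul_le_mul_of_nonneg_right (card_PP d M)
        positivity
    _ = 2 ^ (d + 3) * (m : ℝ) ^ (9 * d + 3) * K * Q / ε ^ 2 := by
        rw [hM, mul_pow]
        push_cast
        rw [← pow_mul, show 9 * d + 3 = 3 * d + 3 + 6 * d by ring, pow_add, pow_add]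
        ring
    _ ≤ 2 ^ (d + 3) * (9 * d / ε) ^ (9 * d + 3) * K * Q / ε ^ 2 := by gcongr
    _ = _ := by
        rw [div_pow, show 9 * d + 5 = (9 * d + 3) + 2 by ring, pow_add ε]
        field_simp
        ring

open Classical in
/-- for a single base the bad translates lie in boundedly many cosets of hyperplanes -/
theorem planes (hd : 1 ≤ d) (b : ℕ) (t : Fin d → ℕ) (s : ℕ) (hs : 1 ≤ s) (hb : 2 ≤ b)
    (hcop : b.Coprime s) (n N : ℕ) (hN : s ^ n ≤ N) (ε : ℝ) (hε : 0 < ε) (hε1 : ε ≤ 1)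
    (x : Fin d → ℝ) :
    ∃ P : Finset ((Fin d → ℤ) × ℕ),
      (P.card : ℝ) ≤ 2 ^ (d + 3) * (9 * d) ^ (9 * d) * kap b s / ε ^ (9 * d + 2) ∧
      (∀ p ∈ P, p.1 ≠ 0 ∧ ∀ i, |(p.1 i : ℝ)| ≤ (9 * d / ε) ^ 3) ∧
      ∀ j : Fin d → ℕ, ¬ JN (fun _ => b) t ε N (fun i => x i + (j i : ℝ) / (s : ℝ) ^ n) →
        ∃ p ∈ P, ((s : ℤ) ^ n) ∣ (∑ i, p.1 i * (b : ℤ) ^ t i * j i) - p.2 := by
  have hNpos : 0 < N := lt_of_lt_of_le (Nat.pow_pos (by omega)) hN
  have hN0 : (0 : ℝ) < N := by exact_mod_cast hNpos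
  have hdR : (1 : ℝ) ≤ d := by exact_mod_cast hd
  obtain ⟨m, hm1, hm8, hm9⟩ := choose_m hd ε hε hε1
  have hmR : (0 : ℝ) < m := by exact_mod_cast hm1
  set M : ℕ := m ^ 3 with hM
  set S : ℝ := ε * N / (2 * (m : ℝ) ^ (3 * d)) with hS
  have hS0 : 0 < S := by rw [hS]; positivity
  have hq : 0 < s ^ n := Nat.pow_pos (by omega)
  have hqR : (0 : ℝ) < (s : ℝ) ^ n := by exact_mod_cast hq
  set X : (Fin d → ℤ) → ℝ := fun h => ∑ i, h i * (b : ℝ) ^ t i * x i with hX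
  set E : (Fin d → ℤ) → Finset ℕ := fun h => (range (s ^ n)).filter
    (fun c => S < ‖Pool.Agent.Q77.Cos.W b 1 N (X h + (c : ℝ) / (s : ℝ) ^ n)‖) with hE
  have hone : ∀ h, ((E h).card : ℝ) ≤ 2 * kap b s * (4 * (m : ℝ) ^ (6 * d) / ε ^ 2) := by
    intro h
    have h1 := Pool.Agent.Q77.Cos.moment_pow b s hb hs hcop n N hN 1 one_ne_zero (X h)
    have h2 : ((E h).card : ℝ) * S ^ 2 ≤
        ∑ k ∈ range (s ^ n), ‖Pool.Agent.Q77.Cos.W b 1 N (X h + k / (s : ℝ) ^ n)‖ ^ 2 := by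
      calc ((E h).card : ℝ) * S ^ 2 = ∑ _k ∈ E h, S ^ 2 := by
            rw [Finset.sum_const, nsmul_eq_mul]
        _ ≤ ∑ k ∈ E h, ‖Pool.Agent.Q77.Cos.W b 1 N (X h + k / (s : ℝ) ^ n)‖ ^ 2 := by
            refine Finset.sum_le_sum fun k hk => ?_
            have h2 := (Finset.mem_filter.1 hk).2
            exact pow_le_pow_left₀ hS0.le h2.le 2
        _ ≤ _ := Finset.sum_le_sum_of_subset_of_nonneg (Finset.filter_subset _ _)
            fun k _ _ => by positivity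
    have h3 : 2 * (kap b s : ℝ) * |((1 : ℤ) : ℝ)| * (N : ℝ) ^ 2 ≤
        (2 * kap b s * (4 * (m : ℝ) ^ (6 * d) / ε ^ 2)) * S ^ 2 := by
      have e1 : (4 * (m : ℝ) ^ (6 * d) / ε ^ 2) * S ^ 2 = (N : ℝ) ^ 2 := by
        rw [hS, show 6 * d = 3 * d + 3 * d by ring, pow_add]
        field_simp
        ring
      rw [Int.cast_one, abs_one]
      apply le_of_eq
      rw [← e1]
      ring
    exact le_of_mul_le_mul_right ((h2.trans h1).trans h3) (by positivity)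
  refine ⟨(PP d M).biUnion (fun h => (E h).image (fun c => (h, c))), ?_, ?_, ?_⟩
  · calc _ ≤ ((∑ h ∈ PP d M, ((E h).image (fun c => (h, c))).card : ℕ) : ℝ) := by
          exact_mod_cast Finset.card_biUnion_le
      _ = ∑ h ∈ PP d M, (((E h).image (fun c => (h, c))).card : ℝ) := by push_cast; rfl
      _ ≤ ∑ _h ∈ PP d M, (2 * kap b s * (4 * (m : ℝ) ^ (6 * d) / ε ^ 2) : ℝ) := by
          refine sum_le_sum fun h _ => le_trans ?_ (hone h)
          exact_mod_cast card_image_le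
      _ = (PP d M).card * (2 * kap b s * (4 * (m : ℝ) ^ (6 * d) / ε ^ 2)) := by
          rw [Finset.sum_const, nsmul_eq_mul]
      _ ≤ (2 * (M : ℝ)) ^ d * (2 * kap b s * (4 * (m : ℝ) ^ (6 * d) / ε ^ 2)) := by
          apply mul_le_mul_of_nonneg_right (card_PP d M)
          positivity
      _ = 2 ^ (d + 3) * (m : ℝ) ^ (9 * d) * kap b s / ε ^ 2 := by
          rw [hM, mul_pow]
          push_cast
          rw [← pow_mul, show 9 * d = 3 * d + 6 * d by ring, pow_add, pow_add]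
          ring
      _ ≤ 2 ^ (d + 3) * (9 * d / ε) ^ (9 * d) * kap b s / ε ^ 2 := by gcongr
      _ = _ := by
          rw [div_pow, pow_add ε]
          field_simp
  · intro p hp
    rw [mem_biUnion] at hp
    obtain ⟨h, hh, hp⟩ := hp
    obtain ⟨c, _, rfl⟩ := mem_image.1 hp
    rw [mem_PP] at hh
    refine ⟨hh.1, fun i => ?_⟩
    have h1 : |(h i : ℝ)| ≤ M := by exact_mod_cast (hh.2 i).le
    refine h1.trans ?_
    rw [hM]
    push_cast
    gcongr
  · intro j hj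
    by_contra hnot
    push Not at hnot
    apply hj
    apply jn_of_small hd (fun _ => b) t m hm1 ε hm8 N _ hε
    intro h hh0 hh1
    set J : ℤ := ∑ i, h i * (b : ℤ) ^ t i * j i with hJ
    set c : ℕ := (J % ((s ^ n : ℕ) : ℤ)).toNat with hc
    have hq0 : ((s ^ n : ℕ) : ℤ) ≠ 0 := by exact_mod_cast hq.ne'
    have hc1 : (c : ℤ) = J % ((s ^ n : ℕ) : ℤ) := by
      rw [hc, Int.toNat_of_nonneg (Int.emod_nonneg _ hq0)]
    have hc2 : c < s ^ n := by
      have := Int.emod_lt_of_pos J (by exact_mod_cast hq : (0 : ℤ) < ((s ^ n : ℕ) : ℤ))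
      rw [← hc1] at this
      exact_mod_cast this
    obtain ⟨k, hk⟩ : ((s ^ n : ℕ) : ℤ) ∣ J - c := by
      rw [hc1]
      exact Int.dvd_self_sub_emod
    have hcE : c ∉ E h := by
      intro hcE
      apply hnot (h, c)
      · rw [mem_biUnion]
        exact ⟨h, mem_PP.2 ⟨hh0, hh1⟩, mem_image.2 ⟨c, hcE, rfl⟩⟩
      · refine ⟨k, ?_⟩
        rw [← hJ, hk]
        push_cast
        rfl
    have hWW : WW (fun _ => b) t h N (fun i => x i + (j i : ℝ) / (s : ℝ) ^ n) =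
        Pool.Agent.Q77.Cos.W b 1 N (X h + (c : ℝ) / (s : ℝ) ^ n) := by
      unfold WW Pool.Agent.Q77.Cos.W
      refine sum_congr rfl fun l _ => ?_
      have h1 : ∑ i, (h i : ℝ) * ((b : ℝ) ^ (t i + l) * (x i + (j i : ℝ) / (s : ℝ) ^ n)) =
          ((1 : ℤ) : ℝ) * ((b : ℝ) ^ l * (X h + (c : ℝ) / (s : ℝ) ^ n)) +
            (((b : ℤ) ^ l * k : ℤ) : ℝ) := by
        have h2 : ∑ i, (h i : ℝ) * ((b : ℝ) ^ (t i + l) * (x i + (j i : ℝ) / (s : ℝ) ^ n)) =
            (b : ℝ) ^ l * (X h + (J : ℝ) / (s : ℝ) ^ n) := by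
          rw [hX, hJ]
          push_cast
          rw [sum_div, ← sum_add_distrib, mul_sum]
          refine sum_congr rfl fun i _ => ?_
          rw [pow_add]
          ring
        rw [h2]
        have h3 : (J : ℝ) = (s : ℝ) ^ n * k + c := by
          have : J = (s : ℤ) ^ n * k + c := by
            have h4 := hk
            push_cast at h4
            linarith
          rw [this]
          push_cast
          rfl
        rw [h3]
        push_cast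
        field_simp
        ring
      rw [h1, e_add, Pool.Agent.Q77.Cos.e_int, mul_one]
    rw [hWW]
    by_contra hcon
    push Not at hcon
    exact hcE (mem_filter.2 ⟨mem_range.2 hc2, hcon⟩)

end Pool.Agent.Q204.NN
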