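import Mathlib
import Pool.Agent.Q204.NN.Moment

/-!
Independent algebraic tuples for which the number of bad translates is large; digit matrices.
-/

set_option autoImplicit false

open Finset Filter

namespace Pool.Agent.Q204.NN

open Pool.Agent.Q77.Cos (kap kap_pos)

/-- the polynomial `X ^ L - 2` is irreducible -/
lemma irr_two (L : ℕ) (hL : 1 ≤ L) :
    Irreducible (Polynomial.X ^ L - Polynomial.C (2 : ℚ) : Polynomial ℚ) := by
  have hpZ : Prime (2 : ℤ) := Int.prime_two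
  set f : Polynomial ℤ := Polynomial.X ^ L - Polynomial.C (2 : ℤ) with hf
  have hmonic : f.Monic := Polynomial.monic_X_pow_sub_C _ (by omega)
  have hdeg : f.degree = L := Polynomial.degree_X_pow_sub_C (by omega) _
  have hirr : Irreducible f := by
    refine Polynomial.irreducible_of_eisenstein_criterion (P := Ideal.span {(2 : ℤ)})
      ((Ideal.span_singleton_prime hpZ.ne_zero).2 hpZ) ?_ ?_ ?_ ?_ hmonic.isPrimitive
    · rw [hmonic.leadingCoeff, Ideal.mem_span_singleton]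
      intro h
      exact hpZ.not_isUnit (isUnit_of_dvd_one h)
    · intro n hn
      rw [hdeg] at hn
      have hnL : n < L := by exact_mod_cast hn
      rw [hf, Polynomial.coeff_sub, Polynomial.coeff_X_pow, if_neg (by omega), zero_sub,
        Ideal.mem_span_singleton, dvd_neg, Polynomial.coeff_C]
      split_ifs
      · exact dvd_rfl
      · exact dvd_zero _
    · rw [hdeg]
      exact_mod_cast hL
    · rw [hf, Polynomial.coeff_sub, Polynomial.coeff_X_pow, if_neg (by omega), zero_sub,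
        Polynomial.coeff_C_zero, Ideal.span_singleton_pow, Ideal.mem_span_singleton, dvd_neg]
      intro h
      norm_num at h
  have h2 := (Polynomial.IsPrimitive.Int.irreducible_iff_irreducible_map_cast
    hmonic.isPrimitive).1 hirr
  have h3 : f.map (Int.castRingHom ℚ) = Polynomial.X ^ L - Polynomial.C (2 : ℚ) := by
    have h4 : (Int.castRingHom ℚ) 2 = 2 := by simp
    rw [hf, Polynomial.map_sub, Polynomial.map_pow, Polynomial.map_X, Polynomial.map_C, h4]
  rwa [h3] at h2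

/-- small independent algebraic tuples -/
lemma small_tuple (d : ℕ) (c : ℕ) (hc : 1 ≤ c) : ∃ x : Fin d → ℝ, (∀ i, IsAlgebraic ℚ (x i)) ∧
    LinearIndependent ℚ (Fin.cons 1 x : Fin (d + 1) → ℝ) ∧
    ∀ i : Fin d, (i : ℕ) = 0 → 0 ≤ x i ∧ x i < 2 / c := by
  set L := d + 1 with hL
  have hL0 : (L : ℝ) ≠ 0 := by exact_mod_cast (by omega : L ≠ 0)
  set θ : ℝ := (2 : ℝ) ^ (1 / (L : ℝ)) with hθ
  have hθL : θ ^ L = 2 := by
    rw [hθ, ← Real.rpow_natCast, ← Real.rpow_mul (by norm_num), one_div_mul_cancel hL0,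
      Real.rpow_one]
  have hθ0 : 0 < θ := by rw [hθ]; positivity
  have hcR : (0 : ℝ) < c := by exact_mod_cast hc
  have hmin : minpoly ℚ θ = Polynomial.X ^ L - Polynomial.C (2 : ℚ) := by
    symm
    refine minpoly.eq_of_irreducible_of_monic (irr_two L (by omega)) ?_
      (Polynomial.monic_X_pow_sub_C _ (by omega))
    simp [hθL]
  have hdeg : (minpoly ℚ θ).natDegree = L := by
    rw [hmin]
    exact Polynomial.natDegree_X_pow_sub_C
  have h1 := linearIndependent_pow (K := ℚ) θ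
  rw [hdeg] at h1
  have halg : IsAlgebraic ℚ θ := by
    refine IsAlgebraic.of_pow (n := L) (by omega) ?_
    rw [hθL]
    exact isAlgebraic_natCast 2
  refine ⟨fun i => θ ^ ((i : ℕ) + 1) / c, fun i => ?_, ?_, ?_⟩
  · show IsAlgebraic ℚ (θ ^ ((i : ℕ) + 1) / c)
    rw [div_eq_mul_inv]
    exact (halg.pow _).mul (isAlgebraic_natCast c).inv
  · have hcQ : (c : ℚ) ≠ 0 := by exact_mod_cast (by omega : c ≠ 0)
    have h2 := h1.units_smul (fun i : Fin L => if (i : ℕ) = 0 then 1 else (Units.mk0 (c : ℚ) hcQ)⁻¹)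
    have h3 : (Fin.cons 1 (fun i : Fin d => θ ^ ((i : ℕ) + 1) / c) : Fin (d + 1) → ℝ) =
        (fun i : Fin L => if (i : ℕ) = 0 then 1 else (Units.mk0 (c : ℚ) hcQ)⁻¹) •
          fun i : Fin L => θ ^ (i : ℕ) := by
      funext i
      refine Fin.cases ?_ (fun k => ?_) i
      · simp
      · rw [Fin.cons_succ]
        simp only [Pi.smul_apply', Fin.val_succ, Nat.add_eq_zero_iff, one_ne_zero, and_false,
          if_false]
        rw [Units.smul_def, Units.val_inv_eq_inv_val, Units.val_mk0, Rat.smul_def]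
        push_cast
        rw [div_eq_mul_inv, mul_comm]
    rw [h3]
    exact h2
  · intro i hi
    have hθ2 : θ < 2 := by
      by_contra hcon
      push Not at hcon
      have h3 : (2 : ℝ) ^ L ≤ θ ^ L := by gcongr
      rw [hθL] at h3
      have hd := i.pos
      have h4 : (2 : ℝ) ^ 2 ≤ 2 ^ L := pow_le_pow_right₀ (by norm_num) (by omega)
      linarith
    simp only [hi, zero_add, pow_one]
    exact ⟨by positivity, by gcongr⟩

variable {d : ℕ}

/-- many bad translates -/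
lemma many_bad (hd : 1 ≤ d) (b t : Fin d → ℕ) (hb : ∀ i, 2 ≤ b i) (N : ℕ) (hN : 1 ≤ N) :
    ∃ x : Fin d → ℝ, (∀ i, IsAlgebraic ℚ (x i)) ∧
      LinearIndependent ℚ (Fin.cons 1 x : Fin (d + 1) → ℝ) ∧
      ∀ (s n : ℕ) (ε : ℝ), 1 ≤ s → ε < 1 / 2 → (s ^ n) ^ (d - 1) ≤
        {j : Fin d → ℕ | (∀ i, j i < s ^ n) ∧
          ¬ JN b t ε N (fun i => x i + (j i : ℝ) / (s : ℝ) ^ n)}.ncard := by
  classical
  set i0 : Fin d := ⟨0, hd⟩ with hi0
  have hb0 : 2 ≤ b i0 := hb i0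
  have hbR : (2 : ℝ) ≤ b i0 := by exact_mod_cast hb0
  obtain ⟨x, hx1, hx2, hx3⟩ := small_tuple d (b i0 ^ (t i0 + N + 1)) (Nat.one_le_pow _ _ (by omega))
  obtain ⟨hx0, hx4⟩ := hx3 i0 rfl
  refine ⟨x, hx1, hx2, fun s n ε hs hε => ?_⟩
  have hbad : ∀ j : Fin d → ℕ, j i0 = 0 →
      ¬ JN b t ε N (fun i => x i + (j i : ℝ) / (s : ℝ) ^ n) := by
    intro j hj hJ
    have h1 := hJ (fun _ => 0) (fun i => if i = i0 then 1 / (b i0 : ℝ) else 1) (fun _ => le_rfl)
      (fun i => by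
        split_ifs
        · positivity
        · norm_num)
      (fun i => by
        split_ifs
        · rw [div_le_one (by linarith)]; linarith
        · norm_num)
    have h2 : (∏ i : Fin d, ((if i = i0 then 1 / (b i0 : ℝ) else 1) - 0)) = 1 / (b i0 : ℝ) := by
      simp [Finset.prod_ite_eq']
    rw [h2] at h1
    have h3 : {m : ℕ | m < N ∧ ∀ i, (0 : ℝ) ≤ Int.fract ((b i : ℝ) ^ (t i + m) *
        (x i + (j i : ℝ) / (s : ℝ) ^ n)) ∧ Int.fract ((b i : ℝ) ^ (t i + m) *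
        (x i + (j i : ℝ) / (s : ℝ) ^ n)) < (if i = i0 then 1 / (b i0 : ℝ) else 1)} =
        Set.Iio N := by
      ext m
      simp only [Set.mem_ofPred_eq, Set.mem_Iio]
      refine ⟨fun h => h.1, fun hm => ⟨hm, fun i => ⟨Int.fract_nonneg _, ?_⟩⟩⟩
      split_ifs with hi
      · rw [hi, hj]
        have h4 : (b i0 : ℝ) ^ (t i0 + m) * (x i0 + ((0 : ℕ) : ℝ) / (s : ℝ) ^ n) =
            (b i0 : ℝ) ^ (t i0 + m) * x i0 := by simp
        rw [h4]
        have h5 : 0 ≤ (b i0 : ℝ) ^ (t i0 + m) * x i0 := by positivity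
        have h6 : (b i0 : ℝ) ^ (t i0 + m) * x i0 < 1 / b i0 := by
          push_cast at hx4
          have h7 : (b i0 : ℝ) ^ (t i0 + N + 1) = (b i0 : ℝ) ^ (t i0 + m) * (b i0 : ℝ) ^ (N + 1 - m) := by
            rw [← pow_add]
            congr 1
            omega
          have h8 : (b i0 : ℝ) ^ 2 ≤ (b i0 : ℝ) ^ (N + 1 - m) :=
            pow_le_pow_right₀ (by linarith) (by omega)
          have hp : (0 : ℝ) < (b i0 : ℝ) ^ (t i0 + m) := by positivity
          calc (b i0 : ℝ) ^ (t i0 + m) * x i0 < (b i0 : ℝ) ^ (t i0 + m) *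
                (2 / (b i0 : ℝ) ^ (t i0 + N + 1)) := by gcongr
            _ = 2 / (b i0 : ℝ) ^ (N + 1 - m) := by rw [h7]; field_simp
            _ ≤ 2 / (b i0 : ℝ) ^ 2 := by gcongr
            _ ≤ 1 / b i0 := by
                rw [div_le_div_iff₀ (by positivity) (by positivity)]
                nlinarith
        have h9 : (1 : ℝ) / b i0 ≤ 1 := by rw [div_le_one (by linarith)]; linarith
        rw [Int.fract_eq_self.2 ⟨h5, h6.trans_le h9⟩]
        exact h6
      · exact Int.fract_lt_one _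
    rw [h3, ← Finset.coe_range, Set.ncard_coe_finset, card_range] at h1
    have hNR : (1 : ℝ) ≤ N := by exact_mod_cast hN
    have h4 : (1 : ℝ) / b i0 ≤ 1 / 2 := by gcongr
    have h5 := (abs_le.1 h1).2
    nlinarith
  have hcard : (Fintype.piFinset (fun i : Fin d => if i = i0 then {0} else range (s ^ n))).card =
      (s ^ n) ^ (d - 1) := by
    rw [Fintype.card_piFinset, ← mul_prod_erase univ _ (mem_univ i0)]
    rw [if_pos rfl, card_singleton, one_mul]
    have : ∀ i ∈ univ.erase i0, (if i = i0 then {0} else range (s ^ n) : Finset ℕ).card = s ^ n := by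
      intro i hi
      rw [if_neg (ne_of_mem_erase hi), card_range]
    rw [prod_congr rfl this, prod_const, card_erase_of_mem (mem_univ _), card_univ, Fintype.card_fin]
  rw [← hcard, ← Set.ncard_coe_finset]
  apply Set.ncard_le_ncard
  · intro j hj
    rw [mem_coe, Fintype.mem_piFinset] at hj
    refine ⟨fun i => ?_, hbad j ?_⟩
    · have h1 := hj i
      split_ifs at h1
      · rw [mem_singleton] at h1
        rw [h1]
        exact Nat.pow_pos (by omega)
      · exact mem_range.1 h1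
    · have h1 := hj i0
      rw [if_pos rfl, mem_singleton] at h1
      exact h1
  · apply Set.Finite.subset (Finset.finite_toSet (Fintype.piFinset fun _ : Fin d => range (s ^ n)))
    rintro j ⟨hj, _⟩
    rw [mem_coe, Fintype.mem_piFinset]
    exact fun i => mem_range.2 (hj i)

open Classical in
/-- all bases at once -/
theorem bad_bases (hd : 1 ≤ d) (B s : ℕ) (t : Fin d → ℕ) (hs : 1 ≤ s) (n N : ℕ)
    (hN : s ^ n ≤ N) (ε : ℝ) (hε : 0 < ε) (hε1 : ε ≤ 1) (x : Fin d → ℝ) :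
    (({j : Fin d → ℕ | (∀ i, j i < s ^ n) ∧
      ¬ ∀ b : Fin d → ℕ, (∀ i, 2 ≤ b i ∧ b i ≤ B ∧ (b i).Coprime s) →
        JN b t ε N (fun i => x i + (j i : ℝ) / (s : ℝ) ^ n)}.ncard : ℕ) : ℝ) ≤
      (B : ℝ) ^ d * (2 ^ (d + 3) * (9 * d) ^ (9 * d + 3) * (∑ b ∈ range (B + 1), (kap b s : ℝ))) *
        ((s : ℝ) ^ n) ^ (d - 1) / ε ^ (9 * d + 5) := by
  set K : ℝ := ∑ b ∈ range (B + 1), (kap b s : ℝ) with hK
  set G : Finset (Fin d → ℕ) := (Fintype.piFinset fun _ : Fin d => Icc 1 B).filter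
    (fun b => ∀ i, 2 ≤ b i ∧ b i ≤ B ∧ (b i).Coprime s) with hG
  have hset : {j : Fin d → ℕ | (∀ i, j i < s ^ n) ∧
      ¬ ∀ b : Fin d → ℕ, (∀ i, 2 ≤ b i ∧ b i ≤ B ∧ (b i).Coprime s) →
        JN b t ε N (fun i => x i + (j i : ℝ) / (s : ℝ) ^ n)} =
      ((G.biUnion (fun b => (Fintype.piFinset (fun _ : Fin d => range (s ^ n))).filter (fun j =>
        ¬ JN b t ε N (fun i => x i + (j i : ℝ) / (s : ℝ) ^ n))) : Finset (Fin d → ℕ)) :
          Set (Fin d → ℕ)) := by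
    ext j
    simp only [Set.mem_ofPred_eq, coe_biUnion, coe_filter, Fintype.mem_piFinset, mem_range, hG,
      mem_Icc, Set.mem_iUnion, exists_prop, not_forall]
    constructor
    · rintro ⟨h1, b, hb, h2⟩
      exact ⟨b, ⟨fun i => ⟨by have := (hb i).1; omega, (hb i).2.1⟩, hb⟩, h1, h2⟩
    · rintro ⟨b, ⟨-, hb⟩, h1, h2⟩
      exact ⟨h1, b, hb, h2⟩
  rw [hset, Set.ncard_coe_finset]
  have hone : ∀ b ∈ G, (((Fintype.piFinset (fun _ : Fin d => range (s ^ n))).filter (fun j =>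
      ¬ JN b t ε N (fun i => x i + (j i : ℝ) / (s : ℝ) ^ n))).card : ℝ) ≤
      2 ^ (d + 3) * (9 * d) ^ (9 * d + 3) * K * ((s : ℝ) ^ n) ^ (d - 1) / ε ^ (9 * d + 5) := by
    intro b hb
    rw [hG, mem_filter] at hb
    obtain ⟨-, hb⟩ := hb
    exact bad_d hd b t s hs (fun i => (hb i).1) (fun i => (hb i).2.2) K (fun i =>
      Finset.single_le_sum (f := fun b => (kap b s : ℝ)) (fun _ _ => Nat.cast_nonneg _)
        (mem_range.2 (by have := (hb i).2.1; omega))) n N hN ε hε hε1 x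
  have hGc : (G.card : ℝ) ≤ (B : ℝ) ^ d := by
    have : G.card ≤ B ^ d := by
      refine (card_filter_le _ _).trans ?_
      rw [Fintype.card_piFinset]
      simp
    exact_mod_cast this
  have hK0 : 0 ≤ K := sum_nonneg fun _ _ => Nat.cast_nonneg _
  calc _ ≤ ((∑ b ∈ G, ((Fintype.piFinset (fun _ : Fin d => range (s ^ n))).filter (fun j =>
        ¬ JN b t ε N (fun i => x i + (j i : ℝ) / (s : ℝ) ^ n))).card : ℕ) : ℝ) := by
          exact_mod_cast card_biUnion_le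
    _ = ∑ b ∈ G, (((Fintype.piFinset (fun _ : Fin d => range (s ^ n))).filter (fun j =>
        ¬ JN b t ε N (fun i => x i + (j i : ℝ) / (s : ℝ) ^ n))).card : ℝ) := by
          push_cast
          rfl
    _ ≤ ∑ _b ∈ G, (2 ^ (d + 3) * (9 * d) ^ (9 * d + 3) * K * ((s : ℝ) ^ n) ^ (d - 1) /
        ε ^ (9 * d + 5) : ℝ) := sum_le_sum hone
    _ = G.card * (2 ^ (d + 3) * (9 * d) ^ (9 * d + 3) * K * ((s : ℝ) ^ n) ^ (d - 1) /
        ε ^ (9 * d + 5)) := by rw [sum_const, nsmul_eq_mul]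
    _ ≤ (B : ℝ) ^ d * (2 ^ (d + 3) * (9 * d) ^ (9 * d + 3) * K * ((s : ℝ) ^ n) ^ (d - 1) /
        ε ^ (9 * d + 5)) := by gcongr
    _ = _ := by ring

/-- a digit matrix which stands at finitely many places -/
lemma matrix_bad (b t : Fin d → ℕ) (B l : ℕ) (hb : ∀ i, 2 ≤ b i ∧ b i ≤ B) (W : Fin d → ℕ)
    (hW : ∀ i, W i < b i ^ l) (y : Fin d → ℝ) (m0 : ℕ)
    (hm : ∀ m, m0 ≤ m → ¬ ∀ i, (W i : ℝ) / (b i : ℝ) ^ l ≤ Int.fract ((b i : ℝ) ^ (t i + m) * y i) ∧
      Int.fract ((b i : ℝ) ^ (t i + m) * y i) < ((W i : ℝ) + 1) / (b i : ℝ) ^ l)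
    (N : ℕ) (hJ : JN b t (1 / (2 * (B : ℝ) ^ (d * l))) N y) (hB : 1 ≤ B) :
    (N : ℝ) ≤ 2 * (B : ℝ) ^ (d * l) * m0 := by
  have hBR : (0 : ℝ) < B := by exact_mod_cast hB
  have hbR : ∀ i, (0 : ℝ) < (b i : ℝ) ^ l := fun i => by
    have : (0 : ℝ) < b i := by exact_mod_cast (by have := (hb i).1; omega : 0 < b i)
    positivity
  have h1 := hJ (fun i => (W i : ℝ) / (b i : ℝ) ^ l) (fun i => ((W i : ℝ) + 1) / (b i : ℝ) ^ l)
    (fun i => by have := hbR i; positivity)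
    (fun i => by
      have := hbR i
      gcongr
      linarith)
    (fun i => by
      rw [div_le_one (hbR i)]
      exact_mod_cast hW i)
  have h2 : {m : ℕ | m < N ∧ ∀ i, (W i : ℝ) / (b i : ℝ) ^ l ≤
      Int.fract ((b i : ℝ) ^ (t i + m) * y i) ∧
      Int.fract ((b i : ℝ) ^ (t i + m) * y i) < ((W i : ℝ) + 1) / (b i : ℝ) ^ l}.ncard ≤ m0 := by
    calc _ ≤ (Set.Iio m0).ncard := by
          apply Set.ncard_le_ncard _ (Set.finite_Iio m0)
          rintro m ⟨_, hm2⟩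
          by_contra hcon
          exact hm m (not_lt.1 hcon) hm2
      _ = m0 := by rw [← Finset.coe_range, Set.ncard_coe_finset, card_range]
  have h3 : ((({m : ℕ | m < N ∧ ∀ i, (W i : ℝ) / (b i : ℝ) ^ l ≤
      Int.fract ((b i : ℝ) ^ (t i + m) * y i) ∧
      Int.fract ((b i : ℝ) ^ (t i + m) * y i) < ((W i : ℝ) + 1) / (b i : ℝ) ^ l}.ncard : ℕ)) : ℝ) ≤
      m0 := by exact_mod_cast h2
  have h4 : 1 / (B : ℝ) ^ (d * l) ≤ ∏ i, (((W i : ℝ) + 1) / (b i : ℝ) ^ l -
      (W i : ℝ) / (b i : ℝ) ^ l) := by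
    have h5 : ∀ i ∈ (univ : Finset (Fin d)), 1 / (B : ℝ) ^ l ≤
        (((W i : ℝ) + 1) / (b i : ℝ) ^ l - (W i : ℝ) / (b i : ℝ) ^ l) := by
      intro i _
      have h6 : ((W i : ℝ) + 1) / (b i : ℝ) ^ l - (W i : ℝ) / (b i : ℝ) ^ l =
          1 / (b i : ℝ) ^ l := by ring
      rw [h6]
      have h7 : (b i : ℝ) ≤ B := by exact_mod_cast (hb i).2
      have := hbR i
      gcongr
    calc 1 / (B : ℝ) ^ (d * l) = ∏ _i : Fin d, 1 / (B : ℝ) ^ l := by
          rw [prod_const, card_univ, Fintype.card_fin, one_div, one_div, inv_pow, ← pow_mul,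
            mul_comm]
      _ ≤ _ := prod_le_prod (fun i _ => by positivity) h5
  have hN0 : (0 : ℝ) ≤ N := Nat.cast_nonneg _
  have h5 := (abs_le.1 h1).1
  have h6 : (1 : ℝ) / (2 * (B : ℝ) ^ (d * l)) = 1 / (B : ℝ) ^ (d * l) / 2 := by field_simp
  rw [h6] at h5
  have h7 : 1 / (B : ℝ) ^ (d * l) * N ≤ (∏ i, (((W i : ℝ) + 1) / (b i : ℝ) ^ l -
      (W i : ℝ) / (b i : ℝ) ^ l)) * N := by gcongr
  have h8 : 1 / (B : ℝ) ^ (d * l) / 2 * N ≤ m0 := by linarith
  have hBp : (0 : ℝ) < (B : ℝ) ^ (d * l) := by positivity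
  calc (N : ℝ) = 2 * (B : ℝ) ^ (d * l) * (1 / (B : ℝ) ^ (d * l) / 2 * N) := by field_simp
    _ ≤ _ := by gcongr

end Pool.Agent.Q204.NN
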